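import Pool.Agent.Helper52.BP.All

/-! # Branching programs that read in few pages (MP_de6334_lc)

The variables are partitioned into pages in `d` ways (for example the rows and the columns of a
matrix).  The pages of each partition are coloured by `g = 2 ^ t` colours, bit by bit, so that all
`g ^ d` classes are large (`splits`).  If each window of `w` steps reads in less than `g` pages, it
misses one of the `g` classes in which all `d` colours are the same.
-/

set_option autoImplicit false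

namespace Pool.Agent.Helper52.PGE

open Finset Pool.Helper52.BP

/-- On every input, in every window of `w` steps, the variables read are in at most `h` pages of
the `d` partitions `π a` (in total); the pages of `π a` are the sets `{v | π a v = p}`. -/
def ReadsPages {n V d : ℕ} (B : BP n V) (T w h : ℕ) (π : Fin d → Fin n → ℕ) : Prop :=
  ∀ z i, ∃ Q : Fin d → Finset ℕ, ∑ a, (Q a).card ≤ h ∧
    ∀ t x, t < T → t / w = i → B.lab (B.st z t) = some x → ∃ a, π a x ∈ Q a

/-- On every input, in every window of `w` steps, the variables read are in the union of at most `h`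
members of the family `F`. -/
def ReadsU {n V : ℕ} (B : BP n V) (T w h : ℕ) (F : Finset (Finset (Fin n))) : Prop :=
  ∀ z i, ∃ Q ⊆ F, Q.card ≤ h ∧
    ∀ t x, t < T → t / w = i → B.lab (B.st z t) = some x → ∃ X ∈ Q, x ∈ X

/-- a choice of signs: `G` is the set of the indices with sign `1` -/
theorem signs {κ : Type*} (J : Finset κ) (a : ℕ → κ → ℤ) (P : Finset ℕ) :
    ∃ G : Finset ℕ, ∑ j ∈ J, (∑ p ∈ P, (if p ∈ G then a p j else -a p j)) ^ 2 ≤
      ∑ j ∈ J, ∑ p ∈ P, a p j ^ 2 := by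
  classical
  induction P using Finset.induction_on with
  | empty => exact ⟨∅, by simp⟩
  | insert p P hp ih =>
    obtain ⟨G, hG⟩ := ih
    obtain ⟨S, hS⟩ : ∃ S : κ → ℤ, S = fun j => ∑ p ∈ P, (if p ∈ G then a p j else -a p j) :=
      ⟨_, rfl⟩
    have hG' : ∑ j ∈ J, S j ^ 2 ≤ ∑ j ∈ J, ∑ p ∈ P, a p j ^ 2 := by rw [hS]; exact hG
    have hR : ∑ j ∈ J, ∑ p ∈ insert p P, a p j ^ 2 =
        ∑ j ∈ J, a p j ^ 2 + ∑ j ∈ J, ∑ p ∈ P, a p j ^ 2 := by
      rw [← sum_add_distrib]
      exact sum_congr rfl fun j _ => sum_insert hp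
    by_cases hX : 0 ≤ ∑ j ∈ J, S j * a p j
    · refine ⟨G.erase p, ?_⟩
      have h1 : ∀ j, ∑ p' ∈ insert p P, (if p' ∈ G.erase p then a p' j else -a p' j) =
          -a p j + S j := by
        intro j
        rw [sum_insert hp, if_neg (notMem_erase p G), hS]
        refine congrArg (fun y => -a p j + y) (sum_congr rfl fun p' hp' => ?_)
        have hne : p' ≠ p := fun h => hp (h ▸ hp')
        exact if_congr (by rw [mem_erase, and_iff_right hne]) rfl rfl
      have h2 : ∑ j ∈ J, (∑ p' ∈ insert p P, (if p' ∈ G.erase p then a p' j else -a p' j)) ^ 2 =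
          ∑ j ∈ J, a p j ^ 2 - 2 * ∑ j ∈ J, S j * a p j + ∑ j ∈ J, S j ^ 2 := by
        rw [mul_sum, ← sum_sub_distrib, ← sum_add_distrib]
        exact sum_congr rfl fun j _ => by rw [h1 j]; ring
      rw [h2, hR]
      linarith
    · refine ⟨insert p G, ?_⟩
      have h1 : ∀ j, ∑ p' ∈ insert p P, (if p' ∈ insert p G then a p' j else -a p' j) =
          a p j + S j := by
        intro j
        rw [sum_insert hp, if_pos (mem_insert_self p G), hS]
        refine congrArg (fun y => a p j + y) (sum_congr rfl fun p' hp' => ?_)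
        have hne : p' ≠ p := fun h => hp (h ▸ hp')
        exact if_congr (by rw [mem_insert, or_iff_right hne]) rfl rfl
      have h2 : ∑ j ∈ J, (∑ p' ∈ insert p P, (if p' ∈ insert p G then a p' j else -a p' j)) ^ 2 =
          ∑ j ∈ J, a p j ^ 2 + 2 * ∑ j ∈ J, S j * a p j + ∑ j ∈ J, S j ^ 2 := by
        rw [mul_sum, ← sum_add_distrib, ← sum_add_distrib]
        exact sum_congr rfl fun j _ => by rw [h1 j]; ring
      rw [h2, hR]
      linarith

/-- one step: the pages are split in two parts, and each of the sets `C j` is split well -/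
theorem split {n M P : ℕ} {κ : Type*} (J : Finset κ) (C : κ → Finset (Fin n)) (π : Fin n → ℕ)
    (hC : ∀ j ∈ J, M ≤ (C j).card) (hπ : ∀ p, (univ.filter (fun v => π v = p)).card ≤ P)
    (hM : 4 * (J.card * P) ≤ M) :
    ∃ G : Finset ℕ, ∀ j ∈ J, M ≤ 4 * ((C j).filter (fun v => π v ∈ G)).card ∧
      M ≤ 4 * ((C j).filter (fun v => π v ∉ G)).card := by
  classical
  have hD : ∀ j, ∃ D : Finset (Fin n), j ∈ J → D ⊆ C j ∧ D.card = M := by
    intro j
    by_cases hj : j ∈ J
    · obtain ⟨D, h1, h2⟩ := exists_subset_card_eq (hC j hj)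
      exact ⟨D, fun _ => ⟨h1, h2⟩⟩
    · exact ⟨∅, fun h => absurd h hj⟩
  choose D hD using hD
  obtain ⟨R, hR⟩ : ∃ R : Finset ℕ, R = univ.image π := ⟨_, rfl⟩
  obtain ⟨a, ha⟩ : ∃ a : ℕ → κ → ℕ, a = fun p j => ((D j).filter (fun v => π v = p)).card :=
    ⟨_, rfl⟩
  obtain ⟨G, hG⟩ := signs J (fun p j => (a p j : ℤ)) R
  have haP : ∀ p j, a p j ≤ P := by
    intro p j
    rw [ha]
    exact (card_le_card (filter_subset_filter _ (subset_univ _))).trans (hπ p)
  have hmap : ∀ (E : Finset (Fin n)), ((E : Finset (Fin n)) : Set (Fin n)).MapsTo π (R : Set ℕ) := by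
    intro E v _
    rw [hR]
    exact mem_coe.2 (mem_image_of_mem _ (mem_univ v))
  have hsum : ∀ j ∈ J, ∑ p ∈ R, a p j = M := by
    intro j hj
    rw [← (hD j hj).2, ha]
    exact (card_eq_sum_card_fiberwise (hmap (D j))).symm
  have hb : ∀ j ∈ J, ∑ p ∈ R, (a p j : ℤ) ^ 2 ≤ (P : ℤ) * M := by
    intro j hj
    rw [← hsum j hj]
    push_cast
    rw [mul_sum]
    refine sum_le_sum fun p _ => ?_
    rw [pow_two]
    exact mul_le_mul_of_nonneg_right (by exact_mod_cast haP p j) (by positivity)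
  have hb2 : ∑ j ∈ J, ∑ p ∈ R, (a p j : ℤ) ^ 2 ≤ (J.card : ℤ) * ((P : ℤ) * M) := by
    refine (sum_le_sum hb).trans ?_
    rw [sum_const, nsmul_eq_mul]
  refine ⟨G, fun j hj => ?_⟩
  obtain ⟨u, hu⟩ : ∃ u, u = ((D j).filter (fun v => π v ∈ G)).card := ⟨_, rfl⟩
  obtain ⟨u', hu'⟩ : ∃ u', u' = ((D j).filter (fun v => π v ∉ G)).card := ⟨_, rfl⟩
  have hadd : u + u' = M := by
    rw [hu, hu', ← (hD j hj).2]
    exact card_filter_add_card_filter_not _
  have hu1 : u = ∑ p ∈ R, (if p ∈ G then a p j else 0) := by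
    rw [hu, card_eq_sum_card_fiberwise (hmap ((D j).filter (fun v => π v ∈ G)))]
    refine sum_congr rfl fun p _ => ?_
    rw [filter_filter]
    by_cases hp : p ∈ G
    · rw [if_pos hp, ha]
      refine congrArg card (filter_congr fun v _ => ?_)
      constructor
      · exact fun h => h.2
      · exact fun h => ⟨by rw [h]; exact hp, h⟩
    · rw [if_neg hp, card_eq_zero, filter_eq_empty_iff]
      intro v _ h
      apply hp
      rw [← h.2]
      exact h.1
  have hu2 : u' = ∑ p ∈ R, (if p ∈ G then 0 else a p j) := by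
    have h1 : ∑ p ∈ R, (if p ∈ G then a p j else 0) + ∑ p ∈ R, (if p ∈ G then 0 else a p j) =
        ∑ p ∈ R, a p j := by
      rw [← sum_add_distrib]
      refine sum_congr rfl fun p _ => ?_
      split_ifs
      · exact add_zero _
      · exact zero_add _
    rw [hsum j hj, ← hu1, ← hadd] at h1
    omega
  have hd : ∑ p ∈ R, (if p ∈ G then (a p j : ℤ) else -(a p j : ℤ)) = (u : ℤ) - u' := by
    rw [hu1, hu2]
    push_cast
    rw [← sum_sub_distrib]
    refine sum_congr rfl fun p _ => ?_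
    split_ifs
    · exact (sub_zero _).symm
    · exact (zero_sub _).symm
  have hle : ((u : ℤ) - u') ^ 2 ≤ (J.card : ℤ) * ((P : ℤ) * M) := by
    rw [← hd]
    refine le_trans ?_ (hG.trans hb2)
    exact single_le_sum
      (f := fun j => (∑ p ∈ R, (if p ∈ G then (a p j : ℤ) else -(a p j : ℤ))) ^ 2)
      (fun _ _ => sq_nonneg _) hj
  have hM4 : 4 * ((J.card : ℤ) * P) ≤ M := by exact_mod_cast hM
  have hsq : (2 * ((u : ℤ) - u')) ^ 2 ≤ (M : ℤ) ^ 2 := by
    have h0 : (0 : ℤ) ≤ M := Int.natCast_nonneg _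
    have h1 := mul_le_mul_of_nonneg_right hM4 h0
    calc (2 * ((u : ℤ) - u')) ^ 2 = 4 * ((u : ℤ) - u') ^ 2 := by ring
      _ ≤ 4 * ((J.card : ℤ) * ((P : ℤ) * M)) := by linarith
      _ = 4 * ((J.card : ℤ) * P) * M := by ring
      _ ≤ M * M := h1
      _ = (M : ℤ) ^ 2 := by ring
  have habs := abs_le_of_sq_le_sq' hsq (Int.natCast_nonneg _)
  have h5 : ((D j).filter (fun v => π v ∈ G)).card ≤ ((C j).filter (fun v => π v ∈ G)).card :=
    card_le_card (filter_subset_filter _ (hD j hj).1)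
  have h6 : ((D j).filter (fun v => π v ∉ G)).card ≤ ((C j).filter (fun v => π v ∉ G)).card :=
    card_le_card (filter_subset_filter _ (hD j hj).1)
  rw [← hu] at h5
  rw [← hu'] at h6
  omega

/-- all steps -/
theorem splits {n P : ℕ} {σ : Type*} [DecidableEq σ] (A : Finset (Fin n))
    (ρ : σ → Fin n → ℕ) (hρ : ∀ i p, (univ.filter (fun v => ρ i v = p)).card ≤ P)
    (S : Finset σ) : ∀ M : ℕ, 4 ^ S.card * M ≤ A.card → 2 ^ S.card * P ≤ M →
    ∃ G : σ → Finset ℕ, ∀ Y ⊆ S,
      M ≤ (A.filter (fun v => ∀ i ∈ S, (ρ i v ∈ G i ↔ i ∈ Y))).card := by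
  classical
  induction S using Finset.induction_on with
  | empty =>
    intro M h1 _
    refine ⟨fun _ => ∅, fun Y _ => ?_⟩
    have h2 : A.filter (fun v => ∀ i ∈ (∅ : Finset σ), (ρ i v ∈ (∅ : Finset ℕ) ↔ i ∈ Y)) = A :=
      filter_true_of_mem fun v _ i hi => absurd hi (notMem_empty i)
    rw [h2]
    simpa using h1
  | insert i0 S hi0 ih =>
    intro M h1 h2
    rw [card_insert_of_notMem hi0] at h1 h2
    have h2' : 2 * (2 ^ S.card * P) ≤ M := by
      rw [pow_succ] at h2
      linarith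
    obtain ⟨G, hG⟩ := ih (4 * M) (by rw [pow_succ] at h1; linarith) (by omega)
    obtain ⟨G0, hG0⟩ := split (M := 4 * M) S.powerset
      (fun Y => A.filter (fun v => ∀ i ∈ S, (ρ i v ∈ G i ↔ i ∈ Y))) (ρ i0)
      (fun Y hY => hG Y (mem_powerset.1 hY)) (hρ i0)
      (by rw [card_powerset]; omega)
    refine ⟨Function.update G i0 G0, fun Y hY => ?_⟩
    have hYS : Y.erase i0 ⊆ S := by
      intro i hi
      obtain ⟨h3, h4⟩ := mem_erase.1 hi
      exact (mem_insert.1 (hY h4)).resolve_left h3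
    obtain ⟨h5, h6⟩ := hG0 (Y.erase i0) (mem_powerset.2 hYS)
    beta_reduce at h5 h6
    have hin : ∀ v, (∀ i ∈ S, (ρ i v ∈ G i ↔ i ∈ Y.erase i0)) →
        (ρ i0 v ∈ G0 ↔ i0 ∈ Y) →
        ∀ i ∈ insert i0 S, (ρ i v ∈ Function.update G i0 G0 i ↔ i ∈ Y) := by
      intro v h7 h8 i hi
      by_cases hii : i = i0
      · rw [hii, Function.update_self]
        exact h8
      · rw [Function.update_of_ne hii]
        have h9 := h7 i ((mem_insert.1 hi).resolve_left hii)
        rw [mem_erase, and_iff_right hii] at h9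
        exact h9
    by_cases hY0 : i0 ∈ Y
    · have h10 : M ≤ ((A.filter (fun v => ∀ i ∈ S, (ρ i v ∈ G i ↔ i ∈ Y.erase i0))).filter
          (fun v => ρ i0 v ∈ G0)).card := by omega
      refine h10.trans (card_le_card ?_)
      intro v hv
      obtain ⟨h11, h12⟩ := mem_filter.1 hv
      obtain ⟨h13, h14⟩ := mem_filter.1 h11
      exact mem_filter.2 ⟨h13, hin v h14 (iff_of_true h12 hY0)⟩
    · have h10 : M ≤ ((A.filter (fun v => ∀ i ∈ S, (ρ i v ∈ G i ↔ i ∈ Y.erase i0))).filter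
          (fun v => ρ i0 v ∉ G0)).card := by omega
      refine h10.trans (card_le_card ?_)
      intro v hv
      obtain ⟨h11, h12⟩ := mem_filter.1 hv
      obtain ⟨h13, h14⟩ := mem_filter.1 h11
      exact mem_filter.2 ⟨h13, hin v h14 (iff_of_false h12 hY0)⟩

/-- all steps, with sets -/
theorem splits' {n P : ℕ} {σ : Type*} [DecidableEq σ] (A : Finset (Fin n))
    (ρ : σ → Fin n → ℕ) (hρ : ∀ i p, (univ.filter (fun v => ρ i v = p)).card ≤ P)
    (S : Finset σ) (M : ℕ) (h1 : 4 ^ S.card * M ≤ A.card) (h2 : 2 ^ S.card * P ≤ M) :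
    ∃ G : σ → Finset ℕ, ∀ Y ⊆ S, ∃ D ⊆ A, M ≤ D.card ∧
      ∀ v ∈ D, ∀ i ∈ S, (ρ i v ∈ G i ↔ i ∈ Y) := by
  obtain ⟨G, hG⟩ := splits A ρ hρ S M h1 h2
  exact ⟨G, fun Y hY => ⟨_, filter_subset _ _, hG Y hY, fun v hv => (mem_filter.1 hv).2⟩⟩

end Pool.Agent.Helper52.PGE
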