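import Pool.Agent.Helper52.PGE.Sys

/-! # Branching programs that read in few pages: the bound -/

set_option autoImplicit false

namespace Pool.Agent.Helper52.PGE

open Finset Pool.Helper52.BP

/-- if each window misses one of the `q` blocks of `s` arguments -/
theorem meta_bound {n V T w q s : ℕ} (B : BP n V) (e : Fin q × Fin s → Fin n) (hn : 64 ≤ n)
    (hV : 2 ≤ V) (hw1 : 1 ≤ w) (hwT : w ≤ T) (hC : Comp B T (f n)) (hq1 : 1 ≤ q)
    (hqk : q ≤ kk n) (hsL : s ≤ LL n) (hqs : q * s < 2 ^ kk n) (he : Function.Injective e)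
    (heN : ∀ p, (e p : ℕ) < 2 ^ kk n)
    (hmiss : ∀ z i, ∃ j : Fin q, ∀ t x, t < T → t / w = i → B.lab (B.st z t) = some x →
      ∀ l, x ≠ e (j, l)) :
    (s : ℝ) * w ≤ 4 * (kk n : ℝ) * ((T : ℝ) * Real.logb 2 V) * 4 ^ q := by
  obtain ⟨hk5, hN1, hN2⟩ := S38.kk_spec hn
  have hTm : T ≤ (T / w + 1) * w := by
    have h1 := Nat.div_add_mod T w
    have h2 := Nat.mod_lt T (show 0 < w by omega)
    rw [add_mul, one_mul, mul_comm (T / w)]
    omega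
  have hmT : (T / w + 1) * w ≤ 2 * T := by
    have h1 := Nat.div_mul_le_self T w
    rw [add_mul, one_mul]
    omega
  have hm1 : 1 ≤ T / w + 1 := Nat.le_add_left 1 _
  obtain ⟨io, hio1, hio2⟩ := st_EMB n q s e hn hq1 hqk hsL hqs he heN
  have h1 := st_COMB2 cut2 st_BNS n V T w (T / w + 1) q s B e io hq1 hw1 hm1 hTm
    (fun u i _ => hmiss (io u) i) hio1 (fun u => by rw [hC (io u)]; exact hio2 u)
  have h2 := S38.logb_bound2 hV hm1 hq1 hqk hk5 h1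
  obtain ⟨m, hm⟩ : ∃ m, m = T / w + 1 := ⟨_, rfl⟩
  rw [← hm] at h2 hmT
  have hmwT : (m : ℝ) * w ≤ 2 * T := by exact_mod_cast hmT
  have hw0 : (0 : ℝ) ≤ w := Nat.cast_nonneg _
  have hS := S52.one_le_logb V hV
  have hP : (0 : ℝ) ≤ 2 * (kk n : ℝ) * Real.logb 2 V * 4 ^ q := by positivity
  calc (s : ℝ) * w ≤ 2 * (kk n : ℝ) * m * Real.logb 2 V * 4 ^ q * w :=
        mul_le_mul_of_nonneg_right h2 hw0
    _ = 2 * (kk n : ℝ) * Real.logb 2 V * 4 ^ q * (m * w) := by ring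
    _ ≤ 2 * (kk n : ℝ) * Real.logb 2 V * 4 ^ q * (2 * T) := mul_le_mul_of_nonneg_left hmwT hP
    _ = 4 * (kk n : ℝ) * ((T : ℝ) * Real.logb 2 V) * 4 ^ q := by ring

/-- the inequality for `q = 2 ^ t` classes -/
theorem sys_bound {n V T w h d t q : ℕ} (B : BP n V) (π : Fin d → Fin n → ℕ) (hn : 64 ≤ n)
    (hd : 0 < d)
    (hw1 : 1 ≤ w) (hwT : w ≤ T) (hC : Comp B T (f n)) (hq : q = 2 ^ t) (hqk : q ≤ kk n)
    (hht : h < q)
    (hp : ∀ a p, 4 * q ^ (3 * d) * (univ.filter (fun v => π a v = p)).card ≤ n)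
    (hR : ReadsPages B T w h π) :
    (n : ℝ) * w ≤ 32 * ((T : ℝ) * Real.logb 2 V * (q : ℝ) ^ (2 * d)) *
      (4 ^ q * Real.logb 2 n ^ 3) := by
  classical
  obtain ⟨hk5, hN1, hN2⟩ := S38.kk_spec hn
  obtain ⟨-, hV⟩ := st_TW2 st_EMB n V T B hn hC
  have hq1 : 1 ≤ q := by omega
  obtain ⟨N, hN⟩ : ∃ N, N = 2 ^ kk n := ⟨_, rfl⟩
  rw [← hN] at hN1 hN2
  obtain ⟨A, hA⟩ : ∃ A : Finset (Fin n), A = univ.filter (fun v : Fin n => (v : ℕ) < N) := ⟨_, rfl⟩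
  have hAc : A.card = N := by
    rw [hA, Fin.card_filter_val_lt]
    omega
  -- the largest page
  obtain ⟨g, hg⟩ : ∃ g, g = q ^ d := ⟨_, rfl⟩
  have hg1 : 1 ≤ g := by
    rw [hg]
    exact Nat.one_le_pow _ _ hq1
  have hg3 : q ^ (3 * d) = g ^ 3 := by
    rw [hg, ← pow_mul, mul_comm]
  have hg2 : (q : ℝ) ^ (2 * d) = (g : ℝ) ^ 2 := by
    rw [hg]
    push_cast
    rw [← pow_mul, mul_comm]
  have hgt : g = 2 ^ (d * t) := by
    rw [hg, hq, ← pow_mul, mul_comm]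
  rw [hg3] at hp
  rw [hg2]
  obtain ⟨P, hP⟩ : ∃ P, P = n / (4 * g ^ 3) := ⟨_, rfl⟩
  have hq3 : 0 < 4 * g ^ 3 := by positivity
  have hρ : ∀ (i : Fin d × Fin t) p, (univ.filter (fun v => π i.1 v = p)).card ≤ P := by
    intro i p
    rw [hP, Nat.le_div_iff_mul_le hq3, mul_comm]
    exact hp i.1 p
  have hPN : g ^ 3 * P ≤ N := by
    have h1 : 4 * g ^ 3 * P ≤ n := by
      rw [hP]
      exact Nat.mul_div_le _ _
    have h2 : 4 * g ^ 3 * P = 4 * (g ^ 3 * P) := by ring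
    omega
  obtain ⟨M, hM⟩ : ∃ M, M = N / g ^ 2 := ⟨_, rfl⟩
  have hcard : (univ : Finset (Fin d × Fin t)).card = d * t := by
    rw [card_univ, Fintype.card_prod, Fintype.card_fin, Fintype.card_fin]
  obtain ⟨G, hG⟩ := splits' A (fun i : Fin d × Fin t => π i.1) hρ univ M
    (by
      rw [hcard, hAc, show (4 : ℕ) = 2 ^ 2 by norm_num, ← pow_mul, mul_comm 2 (d * t), pow_mul,
        ← hgt, hM]
      exact Nat.mul_div_le _ _)
    (by
      rw [hcard, ← hgt, hM, Nat.le_div_iff_mul_le (by positivity)]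
      calc g * P * g ^ 2 = g ^ 3 * P := by ring
        _ ≤ N := hPN)
  -- the classes
  have hG' : ∀ Z : Finset (Fin t), ∃ D ⊆ A, M ≤ D.card ∧
      ∀ v ∈ D, ∀ a k, (π a v ∈ G (a, k) ↔ k ∈ Z) := by
    intro Z
    obtain ⟨D, hD1, hD2, hD3⟩ := hG (univ.filter (fun i => i.2 ∈ Z)) (subset_univ _)
    refine ⟨D, hD1, hD2, fun v hv a k => ?_⟩
    have h1 := hD3 v hv (a, k) (mem_univ _)
    rw [mem_filter] at h1
    exact h1.trans (and_iff_right (mem_univ _))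
  choose C hCA hCc hCd using hG'
  obtain ⟨s, hs⟩ : ∃ s, s = N / (kk n ^ 2 * g ^ 2) := ⟨_, rfl⟩
  have hg21 : 1 ≤ g ^ 2 := Nat.one_le_pow _ _ hg1
  have hk21 : 1 ≤ kk n ^ 2 := Nat.one_le_pow _ _ (by omega)
  have hsL : s ≤ LL n := by
    rw [hs, hN]
    unfold LL
    exact Nat.div_le_div_left (Nat.le_mul_of_pos_right _ hg21) hk21
  have hsC : ∀ Z, s ≤ (C Z).card := fun Z => by
    refine le_trans ?_ (hCc Z)
    rw [hs, hM]
    exact Nat.div_le_div_left (Nat.le_mul_of_pos_left _ hk21) hg21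
  have hcF : Fintype.card (Finset (Fin t)) = q := by
    rw [Fintype.card_finset, Fintype.card_fin, hq]
  obtain ⟨E⟩ : Nonempty (Fin q ≃ Finset (Fin t)) :=
    ⟨(Fintype.equivFinOfCardEq hcF).symm⟩
  obtain ⟨e, he⟩ : ∃ e : Fin q × Fin s → Fin n,
      e = fun p => (C (E p.1)).orderEmbOfCardLe (hsC (E p.1)) p.2 := ⟨_, rfl⟩
  have heC : ∀ p, e p ∈ C (E p.1) := by
    intro p
    rw [he]
    exact orderEmbOfCardLe_mem _ _ _
  have heg : ∀ p a k, (π a (e p) ∈ G (a, k) ↔ k ∈ E p.1) := fun p a k =>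
    hCd (E p.1) (e p) (heC p) a k
  have hinj : Function.Injective e := by
    rintro ⟨j, l⟩ ⟨j', l'⟩ h1
    have h3 : j = j' := by
      apply E.injective
      ext k
      have h4 := heg (j, l) ⟨0, hd⟩ k
      rw [h1] at h4
      exact h4.symm.trans (heg (j', l') ⟨0, hd⟩ k)
    subst h3
    rw [he] at h1
    have h4 : l = l' := ((C (E j)).orderEmbOfCardLe (hsC (E j))).injective h1
    rw [h4]
  have heN : ∀ p, (e p : ℕ) < 2 ^ kk n := by
    intro p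
    have h2 := hCA (E p.1) (heC p)
    rw [hA] at h2
    rw [← hN]
    exact (mem_filter.1 h2).2
  have hs0 : s * (kk n ^ 2 * g ^ 2) ≤ N := by
    rw [hs]
    exact Nat.div_mul_le_self _ _
  have hqs : q * s < 2 ^ kk n := by
    rw [← hN]
    have h1 : q * s ≤ kk n * s := Nat.mul_le_mul_right _ hqk
    have h2 : 5 * (kk n * s) ≤ kk n * (kk n * s) := Nat.mul_le_mul_right _ hk5
    have h3 : kk n * (kk n * s) = s * kk n ^ 2 := by ring
    have h5 : s * kk n ^ 2 ≤ s * (kk n ^ 2 * g ^ 2) :=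
      Nat.mul_le_mul_left _ (Nat.le_mul_of_pos_right _ hg21)
    omega
  have hmiss : ∀ z i, ∃ j : Fin q, ∀ t' x, t' < T → t' / w = i → B.lab (B.st z t') = some x →
      ∀ l, x ≠ e (j, l) := by
    intro z i
    obtain ⟨Q, hQ1, hQ2⟩ := hR z i
    obtain ⟨Z, -, hZ2⟩ : ∃ Z ∈ (univ : Finset (Finset (Fin t))),
        Z ∉ univ.biUnion (fun a : Fin d =>
          (Q a).image (fun p => univ.filter (fun k => p ∈ G (a, k)))) := by
      apply exists_mem_notMem_of_card_lt_card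
      rw [card_univ, hcF]
      exact lt_of_le_of_lt ((card_biUnion_le.trans (sum_le_sum fun a _ => card_image_le)).trans
        hQ1) hht
    refine ⟨E.symm Z, ?_⟩
    intro t' x ht' hti hx l hxe
    obtain ⟨a, ha⟩ := hQ2 t' x ht' hti hx
    apply hZ2
    refine mem_biUnion.2 ⟨a, mem_univ a, mem_image.2 ⟨π a x, ha, ?_⟩⟩
    ext k
    have h2 := heg (E.symm Z, l) a k
    rw [← hxe, E.apply_symm_apply] at h2
    rw [mem_filter, ← h2]
    exact and_iff_right (mem_univ k)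
  have hb := meta_bound B e hn hV hw1 hwT hC hq1 hqk hsL hqs hinj heN hmiss
  -- real estimates
  have hkl : (kk n : ℝ) ≤ Real.logb 2 n := by
    have h1 : ((Nat.log 2 n : ℕ) : ℝ) ≤ Real.logb 2 n := by
      have := Real.natLog_le_logb n 2
      exact_mod_cast this
    have h2 : kk n ≤ Nat.log 2 n := Nat.sub_le _ _
    have h3 : (kk n : ℝ) ≤ (Nat.log 2 n : ℕ) := by exact_mod_cast h2
    linarith
  have hk0 : (0 : ℝ) ≤ kk n := Nat.cast_nonneg _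
  have hk1 : (1 : ℝ) ≤ kk n := by
    have : 1 ≤ kk n := by omega
    exact_mod_cast this
  have hS := S52.one_le_logb V hV
  have hw0 : (0 : ℝ) ≤ w := Nat.cast_nonneg _
  obtain ⟨X, hX⟩ : ∃ X, X = (T : ℝ) * Real.logb 2 V := ⟨_, rfl⟩
  rw [← hX] at hb ⊢
  have hX1 : (w : ℝ) ≤ X := by
    have h1 : (w : ℝ) ≤ T := by exact_mod_cast hwT
    rw [hX]
    exact h1.trans (le_mul_of_one_le_right (Nat.cast_nonneg _) hS)
  have hX0 : 0 ≤ X := hw0.trans hX1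
  have hk3 : (kk n : ℝ) ^ 3 ≤ Real.logb 2 n ^ 3 := pow_le_pow_left₀ hk0 hkl 3
  have hs2 : N < (s + 1) * (kk n ^ 2 * g ^ 2) := by
    rw [hs, mul_comm]
    exact Nat.lt_mul_div_succ _ (by positivity)
  have hfin : (n : ℝ) * w ≤ 32 * (X * (g : ℝ) ^ 2) * (4 ^ q * (kk n : ℝ) ^ 3) := by
    by_cases hs1 : 1 ≤ s
    · have hn8 : n ≤ 8 * (s * (kk n ^ 2 * g ^ 2)) := by
        have h1 : (s + 1) * (kk n ^ 2 * g ^ 2) ≤ (2 * s) * (kk n ^ 2 * g ^ 2) :=
          Nat.mul_le_mul_right _ (by omega)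
        have h2 : (2 * s) * (kk n ^ 2 * g ^ 2) = 2 * (s * (kk n ^ 2 * g ^ 2)) := by ring
        omega
      have hn8R : (n : ℝ) ≤ 8 * (s * ((kk n : ℝ) ^ 2 * (g : ℝ) ^ 2)) := by exact_mod_cast hn8
      calc (n : ℝ) * w ≤ 8 * (s * ((kk n : ℝ) ^ 2 * (g : ℝ) ^ 2)) * w :=
            mul_le_mul_of_nonneg_right hn8R hw0
        _ = 8 * ((kk n : ℝ) ^ 2 * (g : ℝ) ^ 2) * (s * w) := by ring
        _ ≤ 8 * ((kk n : ℝ) ^ 2 * (g : ℝ) ^ 2) * (4 * (kk n : ℝ) * X * 4 ^ q) :=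
            mul_le_mul_of_nonneg_left hb (by positivity)
        _ = 32 * (X * (g : ℝ) ^ 2) * (4 ^ q * (kk n : ℝ) ^ 3) := by ring
    · have hs00 : s = 0 := by omega
      rw [hs00, zero_add, one_mul] at hs2
      have hn4 : n ≤ 4 * (kk n ^ 2 * g ^ 2) := by omega
      have hn4R : (n : ℝ) ≤ 4 * ((kk n : ℝ) ^ 2 * (g : ℝ) ^ 2) := by exact_mod_cast hn4
      have h4q : (1 : ℝ) ≤ 4 ^ q := one_le_pow₀ (by norm_num)
      have h5 : (kk n : ℝ) ^ 2 ≤ (kk n : ℝ) ^ 3 := pow_le_pow_right₀ hk1 (by norm_num)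
      have h6 : (kk n : ℝ) ^ 2 ≤ 4 ^ q * (kk n : ℝ) ^ 3 :=
        h5.trans (le_mul_of_one_le_left (by positivity) h4q)
      calc (n : ℝ) * w ≤ 4 * ((kk n : ℝ) ^ 2 * (g : ℝ) ^ 2) * X :=
            mul_le_mul hn4R hX1 hw0 (by positivity)
        _ = 4 * (X * (g : ℝ) ^ 2) * (kk n : ℝ) ^ 2 := by ring
        _ ≤ 4 * (X * (g : ℝ) ^ 2) * (4 ^ q * (kk n : ℝ) ^ 3) :=
            mul_le_mul_of_nonneg_left h6 (by positivity)
        _ ≤ 32 * (X * (g : ℝ) ^ 2) * (4 ^ q * (kk n : ℝ) ^ 3) := by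
            refine mul_le_mul_of_nonneg_right ?_ (by positivity)
            have : 0 ≤ X * (g : ℝ) ^ 2 := by positivity
            linarith
  refine hfin.trans ?_
  exact mul_le_mul_of_nonneg_left (mul_le_mul_of_nonneg_left hk3 (by positivity)) (by positivity)

/-- Programs that read in at most `h ≤ c log n` pages of `d` page systems in each window of `w`
steps. -/
theorem main_pages : ∀ r : ℕ, 2 ≤ r → ∃ c : ℝ, 0 < c ∧ ∀ (n V T w h d : ℕ) (B : BP n V)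
    (π : Fin d → Fin n → ℕ), 64 ≤ n → Comp B T (f n) → 1 ≤ w → w ≤ T → 1 ≤ h → 1 ≤ d →
    ReadsPages B T w h π → (h : ℝ) ≤ c * Real.logb 2 n →
    (∀ a p, 4 * (2 * h) ^ (3 * d) * (univ.filter (fun v => π a v = p)).card ≤ n) →
    c * ((w : ℝ) * (n : ℝ) ^ (1 - 1 / (r : ℝ))) ≤
      (T : ℝ) * Real.logb 2 V * (2 * (h : ℝ)) ^ (2 * d) := by
  intro r hr
  have hr0 : (0 : ℝ) < r := by
    have : 0 < r := by omega
    exact_mod_cast this
  have hr1 : (1 : ℝ) ≤ r := by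
    have : 1 ≤ r := by omega
    exact_mod_cast this
  refine ⟨1 / (55296 * (r : ℝ) ^ 3), by positivity, ?_⟩
  intro n V T w h d B π hn hC hw1 hwT hh1 hd1 hRd hhd hpg
  have hn1 : (1 : ℝ) ≤ n := by
    have : 1 ≤ n := by omega
    exact_mod_cast this
  have hn0 : (0 : ℝ) < n := by linarith
  obtain ⟨-, hV⟩ := st_TW2 st_EMB n V T B hn hC
  have hS := S52.one_le_logb V hV
  have hL6 : 6 ≤ Nat.log 2 n := Nat.le_log_of_pow_le (by norm_num) (by norm_num; omega)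
  have hT0 : (0 : ℝ) ≤ T := Nat.cast_nonneg _
  have hw0 : (0 : ℝ) ≤ w := Nat.cast_nonneg _
  -- the number of bits
  obtain ⟨t, ht1, ht2⟩ : ∃ t, h < 2 ^ t ∧ 2 ^ t ≤ 2 * h := by
    refine ⟨Nat.log 2 h + 1, Nat.lt_pow_succ_log_self (by norm_num) h, ?_⟩
    rw [pow_succ, mul_comm]
    exact Nat.mul_le_mul_left 2 (Nat.pow_log_le_self 2 (by omega))
  obtain ⟨q, hq⟩ : ∃ q, q = 2 ^ t := ⟨_, rfl⟩
  rw [← hq] at ht1 ht2
  have hqr : (q : ℝ) ≤ 2 * (h : ℝ) := by exact_mod_cast ht2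
  have hlog : n < 2 ^ (Nat.log 2 n + 1) := Nat.lt_pow_succ_log_self (by norm_num) n
  have hl1 : Real.logb 2 n ≤ 2 * (Nat.log 2 n : ℝ) := by
    have h1 : Real.logb 2 n < (Nat.log 2 n : ℝ) + 1 := by
      rw [Real.logb_lt_iff_lt_rpow (by norm_num) hn0]
      have h2 : (n : ℝ) < 2 ^ (Nat.log 2 n + 1) := by exact_mod_cast hlog
      have h3 : (2 : ℝ) ^ ((Nat.log 2 n : ℝ) + 1) = 2 ^ (Nat.log 2 n + 1) := by
        rw [← Real.rpow_natCast]
        push_cast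
        rfl
      rw [h3]
      exact h2
    have h4 : (1 : ℝ) ≤ (Nat.log 2 n : ℝ) := by
      have : 1 ≤ Nat.log 2 n := by omega
      exact_mod_cast this
    linarith
  have hqL : 4 * r * q ≤ Nat.log 2 n := by
    have h1 : (h : ℝ) ≤ 1 / (55296 * (r : ℝ) ^ 3) * (2 * (Nat.log 2 n : ℝ)) :=
      hhd.trans (mul_le_mul_of_nonneg_left hl1 (by positivity))
    have h2 : (h : ℝ) * (55296 * (r : ℝ) ^ 3) ≤ 2 * (Nat.log 2 n : ℝ) := by
      rw [one_div_mul_eq_div, le_div_iff₀ (by positivity)] at h1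
      exact h1
    have h3 : (r : ℝ) ≤ (r : ℝ) ^ 3 := by
      have : (r : ℝ) ^ 3 = r * (r * r) := by ring
      rw [this]
      exact le_mul_of_one_le_right (by positivity) (one_le_mul_of_one_le_of_one_le hr1 hr1)
    have hh0 : (0 : ℝ) ≤ h := Nat.cast_nonneg _
    have h4 : (h : ℝ) * (16 * r) ≤ h * (55296 * (r : ℝ) ^ 3) :=
      mul_le_mul_of_nonneg_left (by linarith) hh0
    have h6 : 4 * (r : ℝ) * q ≤ 4 * r * (2 * h) := mul_le_mul_of_nonneg_left hqr (by positivity)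
    have h5 : 4 * (r : ℝ) * q ≤ (Nat.log 2 n : ℝ) := by linarith
    exact_mod_cast h5
  have hqk : q ≤ kk n := by
    have h1 : 8 * q ≤ 4 * r * q := Nat.mul_le_mul_right _ (by omega)
    unfold kk
    omega
  have hmain := sys_bound B π hn hd1 hw1 hwT hC hq hqk ht1
    (by
      intro a p
      refine le_trans (Nat.mul_le_mul_right _ ?_) (hpg a p)
      exact Nat.mul_le_mul_left 4 (Nat.pow_le_pow_left ht2 _)) hRd
  have hlg := S52.log_cube_le (2 * r) n (by omega) (by omega)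
  have hq4 : (4 : ℝ) ^ q ≤ (n : ℝ) ^ (1 / ((2 * r : ℕ) : ℝ)) := by
    have h1 : ((4 : ℝ) ^ q) ^ (2 * r) ≤ n := by
      have h2 : (4 ^ q) ^ (2 * r) ≤ n := by
        calc (4 ^ q) ^ (2 * r) = 2 ^ (4 * r * q) := by
              rw [← pow_mul, show (4 : ℕ) = 2 ^ 2 by norm_num, ← pow_mul]
              congr 1
              ring
          _ ≤ 2 ^ Nat.log 2 n := Nat.pow_le_pow_right (by norm_num) (by omega)
          _ ≤ n := Nat.pow_log_le_self 2 (by omega)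
      exact_mod_cast h2
    have h3 : (((4 : ℝ) ^ q) ^ (2 * r)) ^ (((2 * r : ℕ) : ℝ)⁻¹) = (4 : ℝ) ^ q :=
      Real.pow_rpow_inv_natCast (by positivity) (by omega)
    calc (4 : ℝ) ^ q = (((4 : ℝ) ^ q) ^ (2 * r)) ^ (((2 * r : ℕ) : ℝ)⁻¹) := h3.symm
      _ ≤ (n : ℝ) ^ (((2 * r : ℕ) : ℝ)⁻¹) :=
          Real.rpow_le_rpow (by positivity) h1 (by positivity)
      _ = (n : ℝ) ^ (1 / ((2 * r : ℕ) : ℝ)) := by rw [one_div]
  have hhalf : (n : ℝ) ^ (1 / ((2 * r : ℕ) : ℝ)) * (n : ℝ) ^ (1 / ((2 * r : ℕ) : ℝ)) =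
      (n : ℝ) ^ (1 / (r : ℝ)) := by
    rw [← Real.rpow_add (by linarith)]
    congr 1
    push_cast
    field_simp
    norm_num
  have hcomb : (4 : ℝ) ^ q * Real.logb 2 n ^ 3 ≤ 1728 * (r : ℝ) ^ 3 * (n : ℝ) ^ (1 / (r : ℝ)) := by
    have hl0 : 0 ≤ Real.logb 2 n := Real.logb_nonneg (by norm_num) hn1
    calc (4 : ℝ) ^ q * Real.logb 2 n ^ 3 ≤ (n : ℝ) ^ (1 / ((2 * r : ℕ) : ℝ)) *
          (216 * ((2 * r : ℕ) : ℝ) ^ 3 * (n : ℝ) ^ (1 / ((2 * r : ℕ) : ℝ))) :=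
          mul_le_mul hq4 hlg (by positivity) (by positivity)
      _ = 216 * ((2 * r : ℕ) : ℝ) ^ 3 * ((n : ℝ) ^ (1 / ((2 * r : ℕ) : ℝ)) *
            (n : ℝ) ^ (1 / ((2 * r : ℕ) : ℝ))) := by ring
      _ = 1728 * (r : ℝ) ^ 3 * (n : ℝ) ^ (1 / (r : ℝ)) := by
          rw [hhalf]
          push_cast
          ring
  have hX0 : (0 : ℝ) ≤ (T : ℝ) * Real.logb 2 V := mul_nonneg hT0 (by linarith)
  obtain ⟨X, hXd⟩ : ∃ X, X = (T : ℝ) * Real.logb 2 V * (2 * (h : ℝ)) ^ (2 * d) := ⟨_, rfl⟩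
  rw [← hXd]
  have hX1 : (T : ℝ) * Real.logb 2 V * (q : ℝ) ^ (2 * d) ≤ X := by
    rw [hXd]
    exact mul_le_mul_of_nonneg_left (pow_le_pow_left₀ (Nat.cast_nonneg _) hqr _) hX0
  have hp : (n : ℝ) ^ (1 / (r : ℝ)) * (n : ℝ) ^ (1 - 1 / (r : ℝ)) = (n : ℝ) := by
    rw [← Real.rpow_add (by linarith)]
    have e : 1 / (r : ℝ) + (1 - 1 / (r : ℝ)) = 1 := by ring
    rw [e, Real.rpow_one]
  have hpos : (0 : ℝ) < (n : ℝ) ^ (1 / (r : ℝ)) := Real.rpow_pos_of_pos (by linarith) _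
  have h5 : (n : ℝ) * w ≤ 32 * X * (1728 * (r : ℝ) ^ 3 * (n : ℝ) ^ (1 / (r : ℝ))) := by
    refine hmain.trans ?_
    exact mul_le_mul (by linarith) hcomb
      (mul_nonneg (by positivity) (pow_nonneg (Real.logb_nonneg (by norm_num) hn1) 3)) (by
      rw [hXd]
      exact mul_nonneg (by norm_num) (mul_nonneg hX0 (by positivity)))
  have h6 : (w : ℝ) * (n : ℝ) ^ (1 - 1 / (r : ℝ)) ≤ (55296 * (r : ℝ) ^ 3) * X := by
    refine le_of_mul_le_mul_left ?_ hpos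
    calc (n : ℝ) ^ (1 / (r : ℝ)) * ((w : ℝ) * (n : ℝ) ^ (1 - 1 / (r : ℝ))) =
          ((n : ℝ) ^ (1 / (r : ℝ)) * (n : ℝ) ^ (1 - 1 / (r : ℝ))) * w := by ring
      _ = n * w := by rw [hp]
      _ ≤ _ := h5
      _ = _ := by ring
  rw [one_div_mul_eq_div, div_le_iff₀ (by positivity)]
  calc (w : ℝ) * (n : ℝ) ^ (1 - 1 / (r : ℝ)) ≤ (55296 * (r : ℝ) ^ 3) * X := h6
    _ = X * (55296 * (r : ℝ) ^ 3) := by ring

/-- Programs that read in the union of at most `h` members of a family `F` in each window of `w`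
steps, where each variable is in at most `d` members of `F`, `d h ≤ c log n`. -/
theorem main_degree : ∀ r : ℕ, 2 ≤ r → ∃ c : ℝ, 0 < c ∧ ∀ (n V T w h d P : ℕ) (B : BP n V)
    (F : Finset (Finset (Fin n))), 64 ≤ n → Comp B T (f n) → 1 ≤ w → w ≤ T → 1 ≤ h → 1 ≤ d →
    1 ≤ P → ReadsU B T w h F → (∀ X ∈ F, X.card ≤ P) →
    (∀ v, (F.filter (fun X => v ∈ X)).card ≤ d) → (d : ℝ) * h ≤ c * Real.logb 2 n →
    4 * (2 * (d * h)) ^ (3 * d) * P ≤ n →
    c * ((w : ℝ) * (n : ℝ) ^ (1 - 1 / (r : ℝ))) ≤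
      (T : ℝ) * Real.logb 2 V * (2 * ((d : ℝ) * h)) ^ (2 * d) := by
  classical
  intro r hr
  obtain ⟨c, hc0, hc⟩ := main_pages r hr
  refine ⟨c, hc0, ?_⟩
  intro n V T w h d P B F hn hC hw1 hwT hh1 hd1 hP1 hRd hFP hFd hdh hsz
  obtain ⟨code, hcode⟩ : ∃ code : Finset (Fin n) → ℕ, Function.Injective code :=
    ⟨fun X => (Fintype.equivFin (Finset (Fin n)) X : ℕ), fun X Y h1 =>
      (Fintype.equivFin (Finset (Fin n))).injective (Fin.ext h1)⟩
  obtain ⟨l, hl⟩ : ∃ l : Fin n → List (Finset (Fin n)),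
      l = fun v => (F.filter (fun X => v ∈ X)).toList := ⟨_, rfl⟩
  have hlm : ∀ v X, X ∈ l v ↔ X ∈ F ∧ v ∈ X := by
    intro v X
    rw [hl]
    exact mem_toList.trans mem_filter
  have hll : ∀ v, (l v).length ≤ d := by
    intro v
    rw [hl]
    exact (length_toList _).le.trans (hFd v)
  obtain ⟨π, hπ⟩ : ∃ π : Fin d → Fin n → ℕ, π = fun (a : Fin d) (v : Fin n) =>
      if ha : (a : ℕ) < (l v).length then 2 * code ((l v)[(a : ℕ)]) else 2 * (v : ℕ) + 1 :=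
    ⟨_, rfl⟩
  have hπ1 : ∀ (a : Fin d) v (ha : (a : ℕ) < (l v).length), π a v = 2 * code ((l v)[(a : ℕ)]) := by
    intro a v ha
    rw [hπ]
    exact dif_pos ha
  have hπ2 : ∀ (a : Fin d) v, ¬ (a : ℕ) < (l v).length → π a v = 2 * (v : ℕ) + 1 := by
    intro a v ha
    rw [hπ]
    exact dif_neg ha
  have hpage : ∀ a p, (univ.filter (fun v => π a v = p)).card ≤ P := by
    intro a p
    by_cases hex : ∃ v0, π a v0 = p ∧ (a : ℕ) < (l v0).length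
    · obtain ⟨v0, h1, h2⟩ := hex
      have hX := (hlm v0 ((l v0)[(a : ℕ)])).1 (List.getElem_mem h2)
      refine le_trans (card_le_card ?_) (hFP _ hX.1)
      intro v hv
      have h3 : π a v = p := (mem_filter.1 hv).2
      rw [← h1, hπ1 a v0 h2] at h3
      by_cases h4 : (a : ℕ) < (l v).length
      · rw [hπ1 a v h4] at h3
        have h5 : (l v)[(a : ℕ)] = (l v0)[(a : ℕ)] := hcode (by omega)
        rw [← h5]
        exact ((hlm v ((l v)[(a : ℕ)])).1 (List.getElem_mem h4)).2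
      · rw [hπ2 a v h4] at h3
        omega
    · refine le_trans (card_le_one.2 ?_) hP1
      intro v hv v' hv'
      have h3 : π a v = p := (mem_filter.1 hv).2
      have h3' : π a v' = p := (mem_filter.1 hv').2
      have h4 : ¬ (a : ℕ) < (l v).length := fun h5 => hex ⟨v, h3, h5⟩
      have h4' : ¬ (a : ℕ) < (l v').length := fun h5 => hex ⟨v', h3', h5⟩
      rw [hπ2 a v h4] at h3
      rw [hπ2 a v' h4'] at h3'
      exact Fin.ext (by omega)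
  have hR : ReadsPages B T w (d * h) π := by
    intro z i
    obtain ⟨Q, hQF, hQc, hQ⟩ := hRd z i
    refine ⟨fun _ => Q.image (fun X => 2 * code X), ?_, ?_⟩
    · rw [sum_const, card_univ, Fintype.card_fin, smul_eq_mul]
      exact Nat.mul_le_mul_left d (card_image_le.trans hQc)
    · intro t x ht hti hx
      obtain ⟨X, hXQ, hxX⟩ := hQ t x ht hti hx
      have h1 : X ∈ l x := (hlm x X).2 ⟨hQF hXQ, hxX⟩
      obtain ⟨a, ha, hXa⟩ := List.getElem_of_mem h1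
      refine ⟨⟨a, lt_of_lt_of_le ha (hll x)⟩, ?_⟩
      rw [hπ1 ⟨a, lt_of_lt_of_le ha (hll x)⟩ x ha]
      refine mem_image.2 ⟨X, hXQ, ?_⟩
      rw [← hXa]
  have hmain := hc n V T w (d * h) d B π hn hC hw1 hwT (Nat.mul_pos hd1 hh1) hd1 hR
    (by push_cast; exact hdh)
    (fun a p => le_trans (Nat.mul_le_mul_left _ (hpage a p)) hsz)
  push_cast at hmain
  exact hmain

end Pool.Agent.Helper52.PGE
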